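import Mathlib

namespace Pool.Agent.Results.MP_7321fb_lc.NotFinDecomp

/-- `D u` is the finite set with canonical index `u`. -/
def D (u : ℕ) : Set ℕ := {i | u.testBit i = true}

/-- `Θ` is an enumeration operator, that is, a c.e. set of pairs. -/
def IsEnumOp (Θ : Set (ℕ × ℕ)) : Prop := REPred fun p : ℕ × ℕ => p ∈ Θ

/-- `Θ(X) = {n : ∃ u, D u ⊆ X ∧ ⟨u, n⟩ ∈ Θ}`. -/
def opApply (Θ : Set (ℕ × ℕ)) (X : Set ℕ) : Set ℕ := {n | ∃ u, D u ⊆ X ∧ (u, n) ∈ Θ}

/-- Enumeration reducibility `A ≤ₑ B`. -/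
def EnumRed (A B : Set ℕ) : Prop := ∃ Θ, IsEnumOp Θ ∧ opApply Θ B = A

/-- `A` is introenumerable: it is infinite and `A ≤ₑ C` for every infinite `C ⊆ A`. -/
def Introenumerable (A : Set ℕ) : Prop := A.Infinite ∧ ∀ C ⊆ A, C.Infinite → EnumRed A C

/-- `A ≤ᵤᵢ,ₑ B`: one enumeration operator maps every infinite subset of `B` to `A`. -/
def UnifEnumRed (A B : Set ℕ) : Prop :=
  ∃ Θ, IsEnumOp Θ ∧ ∀ C ⊆ B, C.Infinite → opApply Θ C = A

/-- `A` is finitely decomposable: `A = B 0 ∪ ... ∪ B n` with `A ≤ᵤᵢ,ₑ B i` for all `i ≤ n`. -/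
def FinitelyDecomposable (A : Set ℕ) : Prop :=
  ∃ (n : ℕ) (B : Fin (n + 1) → Set ℕ), A = ⋃ i, B i ∧ ∀ i, UnifEnumRed A (B i)

/-! ### Coding -/

/-- moduli -/
def M (k : ℕ) : ℕ := 2 ^ (k * k)

def col (x : ℕ) : ℕ := x.unpair.1.unpair.1
def pre (x : ℕ) : ℕ := x.unpair.1.unpair.2
def lev (x : ℕ) : ℕ := x.unpair.2.unpair.1
def arr (x : ℕ) : ℕ := x.unpair.2.unpair.2

/-- the `i`-th entry of the array coded in base `b` by `L` -/
def ent (L b i : ℕ) : ℕ := (L / b ^ i) % b

/-- The relation `R S t y`: `y` is an element of the set coded by the string `t` of length `S`. -/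
def R (S t y : ℕ) : Prop :=
  col y < lev y ∧ lev y ≤ S ∧ pre y = t % M (col y) ∧ arr y < M (lev y) ^ M (col y + 1) ∧
    ent (arr y) (M (lev y)) (t % M (col y + 1)) = t % M (lev y)

/-- A branch: a compatible sequence of residues. -/
def Branch (z : ℕ → ℕ) : Prop := ∀ k, z k < M k ∧ z (k + 1) % M k = z k

/-- The set attached to a branch. -/
def A (z : ℕ → ℕ) : Set ℕ :=
  {y | col y < lev y ∧ pre y = z (col y) ∧ arr y < M (lev y) ^ M (col y + 1) ∧
    ent (arr y) (M (lev y)) (z (col y + 1)) = z (lev y)}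

lemma M_pos (k : ℕ) : 0 < M k := by unfold M; positivity

lemma M_dvd {k s : ℕ} (h : k ≤ s) : M k ∣ M s := by
  unfold M
  exact pow_dvd_pow 2 (Nat.mul_le_mul h h)

lemma Branch.mod {z : ℕ → ℕ} (hz : Branch z) {k s : ℕ} (h : k ≤ s) : z s % M k = z k := by
  induction s, h using Nat.le_induction with
  | base => exact Nat.mod_eq_of_lt (hz k).1
  | succ s hs ih =>
    rw [← ih, ← (hz s).2, Nat.mod_mod_of_dvd _ (M_dvd hs)]

lemma R_iff {z : ℕ → ℕ} (hz : Branch z) (S y : ℕ) :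
    R S (z S) y ↔ y ∈ A z ∧ lev y ≤ S := by
  unfold R A
  simp only [Set.mem_ofPred_eq]
  constructor
  · rintro ⟨h1, h2, h3, h4, h5⟩
    rw [hz.mod (by omega)] at h3
    rw [hz.mod (by omega), hz.mod h2] at h5
    exact ⟨⟨h1, h3, h4, h5⟩, h2⟩
  · rintro ⟨⟨h1, h3, h4, h5⟩, h2⟩
    refine ⟨h1, h2, ?_, h4, ?_⟩
    · rw [hz.mod (by omega)]; exact h3
    · rw [hz.mod (by omega), hz.mod h2]; exact h5

/-! ### Primitive recursiveness -/

lemma primrec_pow : Primrec₂ (fun a b : ℕ => a ^ b) := Primrec₂.unpaired'.1 Nat.Primrec.pow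

lemma primrec_M : Primrec M :=
  primrec_pow.comp (Primrec.const 2) (Primrec.nat_mul.comp Primrec.id Primrec.id)

lemma primrec_col : Primrec col :=
  Primrec.fst.comp (Primrec.unpair.comp (Primrec.fst.comp Primrec.unpair))
lemma primrec_pre : Primrec pre :=
  Primrec.snd.comp (Primrec.unpair.comp (Primrec.fst.comp Primrec.unpair))
lemma primrec_lev : Primrec lev :=
  Primrec.fst.comp (Primrec.unpair.comp (Primrec.snd.comp Primrec.unpair))
lemma primrec_arr : Primrec arr :=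
  Primrec.snd.comp (Primrec.unpair.comp (Primrec.snd.comp Primrec.unpair))

section
variable {α : Type*} [Primcodable α]

lemma primrec_ent {L b i : α → ℕ} (hL : Primrec L) (hb : Primrec b) (hi : Primrec i) :
    Primrec (fun a => ent (L a) (b a) (i a)) :=
  Primrec.nat_mod.comp (Primrec.nat_div.comp hL (primrec_pow.comp hb hi)) hb

lemma primrec_R {S t y : α → ℕ} (hS : Primrec S) (ht : Primrec t) (hy : Primrec y) :
    PrimrecPred (fun a => R (S a) (t a) (y a)) := by
  unfold R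
  have hc := primrec_col.comp hy
  have hp := primrec_pre.comp hy
  have hl := primrec_lev.comp hy
  have ha := primrec_arr.comp hy
  have hMl := primrec_M.comp hl
  have hMc := primrec_M.comp hc
  have hMc1 := primrec_M.comp (Primrec.succ.comp hc)
  refine PrimrecPred.and (Primrec.nat_lt.comp hc hl) ?_
  refine PrimrecPred.and (Primrec.nat_le.comp hl hS) ?_
  refine PrimrecPred.and (Primrec.eq.comp hp (Primrec.nat_mod.comp ht hMc)) ?_
  refine PrimrecPred.and (Primrec.nat_lt.comp ha (primrec_pow.comp hMl hMc1)) ?_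
  exact Primrec.eq.comp (primrec_ent ha hMl (Primrec.nat_mod.comp ht hMc1))
    (Primrec.nat_mod.comp ht hMl)

end

/-- The operator built from a primitive recursive relation on elements. -/
def mkOp (P : ℕ → ℕ → Prop) : Set (ℕ × ℕ) :=
  {p | ∃ x < p.1, p.1.testBit x = true ∧ P x p.2}

lemma mkOp_enum {P : ℕ → ℕ → Prop} (hP : PrimrecRel P) : IsEnumOp (mkOp P) := by
  have h1 : PrimrecRel (fun (x q : ℕ) => q.unpair.1.testBit x = true ∧ P x q.unpair.2) := by
    refine PrimrecPred.and (p := fun q : ℕ × ℕ => q.2.unpair.1.testBit q.1 = true) ?_ ?_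
    · have : PrimrecPred (fun q : ℕ × ℕ => (q.2.unpair.1 / 2 ^ q.1) % 2 = 1) :=
        Primrec.eq.comp (Primrec.nat_mod.comp (Primrec.nat_div.comp
          (Primrec.fst.comp (Primrec.unpair.comp Primrec.snd))
          (primrec_pow.comp (Primrec.const 2) Primrec.fst))
          (Primrec.const 2)) (Primrec.const 1)
      refine this.of_eq (fun q => ?_)
      rw [Nat.testBit_eq_decide_div_mod_eq, decide_eq_true_iff]
    · exact hP.comp Primrec.fst (Primrec.snd.comp (Primrec.unpair.comp Primrec.snd))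
  have h2 := PrimrecRel.exists_lt h1
  have h3 : PrimrecPred (fun p : ℕ × ℕ => ∃ x < p.1,
      (Nat.pair p.1 p.2).unpair.1.testBit x = true ∧ P x (Nat.pair p.1 p.2).unpair.2) :=
    h2.comp Primrec.fst (Primrec₂.natPair.comp Primrec.fst Primrec.snd)
  simp only [Nat.unpair_pair] at h3
  exact h3.computablePred.to_re

lemma mkOp_apply (P : ℕ → ℕ → Prop) (X : Set ℕ) :
    opApply (mkOp P) X = {y | ∃ x ∈ X, P x y} := by
  ext y
  constructor
  · rintro ⟨u, hu, x, _, hx, hP⟩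
    exact ⟨x, hu hx, hP⟩
  · rintro ⟨x, hx, hP⟩
    refine ⟨2 ^ x, ?_, x, Nat.lt_two_pow_self, ?_, hP⟩
    · intro i hi
      have : (2 ^ x).testBit i = true := hi
      rw [Nat.testBit_two_pow] at this
      rw [← of_decide_eq_true this]
      exact hx
    · exact Nat.testBit_two_pow_self

/-! ### Introenumerability of the sets `A z` -/

/-- reads the prefix of an element -/
def P1 (x y : ℕ) : Prop := R (col x) (pre x) y

/-- reads the `i`-th entry of the array of an element of column `k` -/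
def P2 (k i x y : ℕ) : Prop := col x = k ∧ R (lev x) (ent (arr x) (M (lev x)) i) y

lemma primrec_P1 : PrimrecRel P1 :=
  primrec_R (primrec_col.comp Primrec.fst) (primrec_pre.comp Primrec.fst) Primrec.snd

lemma primrec_P2 (k i : ℕ) : PrimrecRel (P2 k i) := by
  refine PrimrecPred.and (p := fun q : ℕ × ℕ => col q.1 = k) ?_ ?_
  · exact Primrec.eq.comp (primrec_col.comp Primrec.fst) (Primrec.const k)
  · exact primrec_R (primrec_lev.comp Primrec.fst) (primrec_ent (primrec_arr.comp Primrec.fst)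
      (primrec_M.comp (primrec_lev.comp Primrec.fst)) (Primrec.const i)) Primrec.snd

lemma finite_lev_lt (z : ℕ → ℕ) (S : ℕ) : {x | x ∈ A z ∧ lev x < S}.Finite := by
  have hfin : (⋃ k ∈ Set.Iio S, ⋃ s ∈ Set.Iio S,
      (fun L => Nat.pair (Nat.pair k (z k)) (Nat.pair s L)) '' Set.Iio (M s ^ M (k + 1))).Finite :=
    (Set.finite_Iio S).biUnion (fun k _ => (Set.finite_Iio S).biUnion
      (fun s _ => (Set.finite_Iio _).image _))
  refine hfin.subset ?_
  rintro x ⟨⟨h1, h2, h3, h4⟩, h5⟩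
  simp only [Set.mem_iUnion]
  refine ⟨col x, ?_, lev x, h5, arr x, h3, ?_⟩
  · exact h1.trans h5
  · change Nat.pair (Nat.pair (col x) (z (col x))) (Nat.pair (lev x) (arr x)) = x
    rw [← h2]
    simp [col, pre, lev, arr, Nat.pair_unpair]

lemma case1 {z : ℕ → ℕ} (hz : Branch z) {C : Set ℕ} (hC : C ⊆ A z)
    (h : ∀ K, ∃ x ∈ C, K ≤ col x) : opApply (mkOp P1) C = A z := by
  rw [mkOp_apply]
  ext y
  constructor
  · rintro ⟨x, hx, hxy⟩
    have h1 : pre x = z (col x) := (hC hx).2.1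
    unfold P1 at hxy
    rw [h1, R_iff hz] at hxy
    exact hxy.1
  · intro hy
    obtain ⟨x, hx, hK⟩ := h (lev y)
    refine ⟨x, hx, ?_⟩
    have h1 : pre x = z (col x) := (hC hx).2.1
    unfold P1
    rw [h1, R_iff hz]
    exact ⟨hy, hK⟩

lemma case2 {z : ℕ → ℕ} (hz : Branch z) {C : Set ℕ} (hC : C ⊆ A z) (k : ℕ)
    (h : ∀ S, ∃ x ∈ C, col x = k ∧ S ≤ lev x) : opApply (mkOp (P2 k (z (k + 1)))) C = A z := by
  rw [mkOp_apply]
  ext y
  constructor
  · rintro ⟨x, hx, hk, hxy⟩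
    have h1 : ent (arr x) (M (lev x)) (z (col x + 1)) = z (lev x) := (hC hx).2.2.2
    rw [hk] at h1
    rw [h1, R_iff hz] at hxy
    exact hxy.1
  · intro hy
    obtain ⟨x, hx, hk, hS⟩ := h (lev y)
    refine ⟨x, hx, hk, ?_⟩
    have h1 : ent (arr x) (M (lev x)) (z (col x + 1)) = z (lev x) := (hC hx).2.2.2
    rw [hk] at h1
    rw [h1, R_iff hz]
    exact ⟨hy, hS⟩

lemma enumRed_of_infinite {z : ℕ → ℕ} (hz : Branch z) {C : Set ℕ} (hC : C ⊆ A z)
    (hinf : C.Infinite) : EnumRed (A z) C := by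
  by_cases h : ∀ K, ∃ x ∈ C, K ≤ col x
  · exact ⟨_, mkOp_enum primrec_P1, case1 hz hC h⟩
  · push Not at h
    obtain ⟨K, hK⟩ := h
    have h1 : ∃ k, {x | x ∈ C ∧ col x = k}.Infinite := by
      by_contra hcon
      push Not at hcon
      apply hinf
      have h2 : (⋃ k ∈ Set.Iio K, {x | x ∈ C ∧ col x = k}).Finite :=
        (Set.finite_Iio K).biUnion (fun k _ => Set.not_infinite.1 (by simpa using hcon k))
      refine h2.subset (fun x hx => ?_)
      simp only [Set.mem_iUnion]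
      exact ⟨col x, hK x hx, hx, rfl⟩
    obtain ⟨k, hk⟩ := h1
    refine ⟨_, mkOp_enum (primrec_P2 k (z (k + 1))), case2 hz hC k (fun S => ?_)⟩
    by_contra hcon
    push Not at hcon
    apply hk
    refine (finite_lev_lt z S).subset ?_
    rintro x ⟨hx, hxk⟩
    exact ⟨hC hx, hcon x hx hxk⟩

/-! ### Common elements -/

lemma exists_arr (b : ℕ) : ∀ (n : ℕ) (v : ℕ → ℕ), (∀ i, v i < b) →
    ∃ L < b ^ n, ∀ i < n, ent L b i = v i := by
  intro n
  induction n with
  | zero =>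
    intro v hv
    exact ⟨0, by simp, fun i hi => by omega⟩
  | succ n ih =>
    intro v hv
    obtain ⟨L, hL, hLv⟩ := ih (fun i => v (i + 1)) (fun i => hv _)
    have hb : 0 < b := lt_of_le_of_lt (Nat.zero_le _) (hv 0)
    refine ⟨v 0 + b * L, ?_, ?_⟩
    · have h1 : L + 1 ≤ b ^ n := hL
      calc v 0 + b * L < b + b * L := Nat.add_lt_add_right (hv 0) _
        _ = b * (L + 1) := by ring
        _ ≤ b * b ^ n := Nat.mul_le_mul_left _ h1
        _ = b ^ (n + 1) := by ring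
    · intro i hi
      cases i with
      | zero =>
        unfold ent
        rw [pow_zero, Nat.div_one, Nat.add_mul_mod_self_left, Nat.mod_eq_of_lt (hv 0)]
      | succ i =>
        have h2 : ent (v 0 + b * L) b (i + 1) = ent L b i := by
          unfold ent
          rw [pow_succ', ← Nat.div_div_eq_div_mul, Nat.add_mul_div_left _ _ hb,
            Nat.div_eq_of_lt (hv 0), Nat.zero_add]
        rw [h2]
        exact hLv i (by omega)

lemma common_infinite {ι : Type} [Nonempty ι] (k : ℕ) (z : ι → ℕ → ℕ) (hz : ∀ i, Branch (z i))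
    (hk : ∀ i j, z i k = z j k) (hinj : ∀ i j, z i (k + 1) = z j (k + 1) → i = j) :
    (⋂ i, A (z i)).Infinite := by
  classical
  have i0 : ι := Classical.arbitrary ι
  have hex : ∀ s, ∃ L < M s ^ M (k + 1), ∀ i, ent L (M s) (z i (k + 1)) = z i s := by
    intro s
    obtain ⟨L, hL, hLv⟩ := exists_arr (M s) (M (k + 1))
      (fun j => if h : ∃ i, z i (k + 1) = j then z h.choose s else 0) (fun j => by
        by_cases h : ∃ i, z i (k + 1) = j
        · simp only [h, dite_true]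
          exact (hz _ s).1
        · simp only [h, dite_false]
          exact M_pos s)
    refine ⟨L, hL, fun i => ?_⟩
    rw [hLv _ ((hz i (k + 1)).1)]
    have h : ∃ i', z i' (k + 1) = z i (k + 1) := ⟨i, rfl⟩
    simp only [h, dite_true]
    rw [hinj _ _ h.choose_spec]
  choose L hL hLv using hex
  refine Set.infinite_of_injective_forall_mem
    (f := fun n => Nat.pair (Nat.pair k (z i0 k)) (Nat.pair (k + 1 + n) (L (k + 1 + n)))) ?_ ?_
  · intro a b hab
    simp only [Nat.pair_eq_pair] at hab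
    omega
  · intro n
    simp only [Set.mem_iInter]
    intro i
    simp only [A, Set.mem_ofPred_eq, col, pre, lev, arr, Nat.unpair_pair]
    exact ⟨by omega, hk _ _, hL _, hLv _ i⟩

lemma A_infinite {z : ℕ → ℕ} (hz : Branch z) : (A z).Infinite := by
  have := common_infinite (ι := Unit) 0 (fun _ => z) (fun _ => hz) (fun _ _ => rfl)
    (fun _ _ _ => rfl)
  exact this.mono (fun x hx => Set.mem_iInter.1 hx ())

lemma A_inj {z z' : ℕ → ℕ} (hz : Branch z) (h : A z = A z') : z = z' := by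
  funext k
  have h2 : ∃ x, x ∈ A z ∧ col x = k := by
    obtain ⟨L, hL, hLv⟩ := exists_arr (M (k + 1)) (M (k + 1)) (fun _ => z (k + 1))
      (fun _ => (hz _).1)
    refine ⟨Nat.pair (Nat.pair k (z k)) (Nat.pair (k + 1) L), ?_, by simp [col]⟩
    simp only [A, Set.mem_ofPred_eq, col, pre, lev, arr, Nat.unpair_pair]
    exact ⟨by omega, trivial, hL, hLv _ (hz _).1⟩
  obtain ⟨x, hx, hxk⟩ := h2
  have h3 : pre x = z (col x) := hx.2.1
  have h4 : pre x = z' (col x) := (h ▸ hx : x ∈ A z').2.1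
  rw [← hxk, ← h3, h4]

theorem introenumerable_A {z : ℕ → ℕ} (hz : Branch z) : Introenumerable (A z) :=
  ⟨A_infinite hz, fun _ hC hinf => enumRed_of_infinite hz hC hinf⟩

/-! ### Diagonalisation -/

/-- enumeration operators -/
def Ops : Type := {Θ : Set (ℕ × ℕ) // IsEnumOp Θ}

instance : Countable Ops := by
  have h : ∀ Θ : Ops, ∃ c : Nat.Partrec.Code,
      c.eval = fun n => Part.bind (Encodable.decode (α := ℕ × ℕ) n) fun a =>
        (Part.assert (a ∈ Θ.1) fun _ => Part.some ()).map Encodable.encode := by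
    intro Θ
    exact Nat.Partrec.Code.exists_code.1 Θ.2
  choose c hc using h
  refine Function.Injective.countable (f := c) (fun Θ Θ' heq => ?_)
  apply Subtype.ext
  ext a
  have h1 := hc Θ
  have h2 := hc Θ'
  rw [heq, h2] at h1
  have h3 := congrFun h1 (Encodable.encode a)
  simp only [Encodable.encodek] at h3
  have h4 := congrArg Part.Dom h3
  simp only [Part.coe_some, Part.bind_some, Part.map_Dom] at h4
  have h5 : ∀ (Ψ : Ops), (Part.assert (a ∈ Ψ.1) fun _ => Part.some ()).Dom ↔ a ∈ Ψ.1 := by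
    intro Ψ
    exact ⟨fun h => h.1, fun h => ⟨h, trivial⟩⟩
  rw [← h5 Θ, ← h5 Θ', h4]

instance : Nonempty Ops :=
  ⟨⟨_, mkOp_enum primrec_P1⟩⟩

/-- The tuple `τ` of operators witnesses that `A z` is finitely decomposable. -/
def Dec (τ : Σ n : ℕ, Fin (n + 1) → Ops) (z : ℕ → ℕ) : Prop :=
  ∃ B : Fin (τ.1 + 1) → Set ℕ, A z = ⋃ i, B i ∧
    ∀ i, ∀ C ⊆ B i, C.Infinite → opApply (τ.2 i).1 C = A z

lemma dec_of_finitelyDecomposable {z : ℕ → ℕ} (h : FinitelyDecomposable (A z)) :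
    ∃ τ, Dec τ z := by
  obtain ⟨n, B, hB, hU⟩ := h
  choose Θ hΘ hΘ' using hU
  exact ⟨⟨n, fun i => ⟨Θ i, hΘ i⟩⟩, B, hB, hΘ'⟩

/-- Pigeonhole: a tuple of `n + 1` operators cannot work for `n + 2` branches splitting at `k`. -/
lemma pigeon (τ : Σ n : ℕ, Fin (n + 1) → Ops) (k : ℕ) (z : Fin (τ.1 + 2) → ℕ → ℕ)
    (hz : ∀ i, Branch (z i)) (hk : ∀ i j, z i k = z j k)
    (hinj : ∀ i j, z i (k + 1) = z j (k + 1) → i = j) : ¬ ∀ i, Dec τ (z i) := by
  intro h
  choose B hB hdec using h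
  have hY := common_infinite k z hz hk hinj
  have hmem : ∀ (y : (⋂ i, A (z i) : Set ℕ)) (i : Fin (τ.1 + 2)), ∃ j, (y : ℕ) ∈ B i j := by
    intro y i
    have h1 : (y : ℕ) ∈ A (z i) := Set.mem_iInter.1 y.2 i
    rw [hB i] at h1
    exact Set.mem_iUnion.1 h1
  choose v hv using hmem
  have : Infinite (⋂ i, A (z i) : Set ℕ) := hY.to_subtype
  obtain ⟨w, hw⟩ := Finite.exists_infinite_fiber v
  obtain ⟨i, j, hij, hwij⟩ := Fintype.exists_ne_map_eq_of_card_lt w (by simp)
  have hZinf : (Subtype.val '' (v ⁻¹' {w}) : Set ℕ).Infinite := by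
    refine Set.Infinite.image Subtype.val_injective.injOn ?_
    exact Set.infinite_coe_iff.1 hw
  have hsub : ∀ i', (Subtype.val '' (v ⁻¹' {w}) : Set ℕ) ⊆ B i' (w i') := by
    rintro i' _ ⟨y, hy, rfl⟩
    have h1 : v y = w := hy
    rw [← h1]
    exact hv y i'
  have e1 := hdec i (w i) _ (hsub i) hZinf
  have e2 := hdec j (w j) _ (hsub j) hZinf
  rw [← hwij, e1] at e2
  have e3 := A_inj (hz i) e2
  exact hij (hinj i j (by rw [e3]))

lemma exists_step (τ : Σ n : ℕ, Fin (n + 1) → Ops) (k p : ℕ) (hp : p < M k)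
    (hn : τ.1 + 2 ≤ 2 ^ (2 * k + 1)) :
    ∃ c, c < M (k + 1) ∧ c % M k = p ∧ ∀ z, Branch z → z (k + 1) = c → ¬ Dec τ z := by
  by_contra hcon
  push Not at hcon
  have hc : ∀ i : Fin (τ.1 + 2), p + M k * i < M (k + 1) ∧ (p + M k * i) % M k = p := by
    intro i
    have h1 : M (k + 1) = M k * 2 ^ (2 * k + 1) := by
      unfold M
      rw [← pow_add]
      congr 1
      ring
    have h2 : (i : ℕ) + 1 ≤ 2 ^ (2 * k + 1) := by
      have := i.2
      omega
    refine ⟨?_, ?_⟩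
    · calc p + M k * i < M k + M k * i := Nat.add_lt_add_right hp _
        _ = M k * (i + 1) := by ring
        _ ≤ M k * 2 ^ (2 * k + 1) := Nat.mul_le_mul_left _ h2
        _ = M (k + 1) := h1.symm
    · rw [Nat.add_mul_mod_self_left, Nat.mod_eq_of_lt hp]
  have h := fun i : Fin (τ.1 + 2) => hcon _ (hc i).1 (hc i).2
  choose z hz hzk hdec using h
  refine pigeon τ k z hz ?_ ?_ hdec
  · intro i j
    rw [← (hz i k).2, ← (hz j k).2, hzk, hzk, (hc i).2, (hc j).2]
  · intro i j hij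
    rw [hzk, hzk] at hij
    have h1 : M k * (i : ℕ) = M k * (j : ℕ) := by omega
    exact Fin.ext (Nat.eq_of_mul_eq_mul_left (M_pos k) h1)

/-- **Main theorem.** There is an introenumerable set which is not finitely decomposable. -/
theorem result : ∃ A : Set ℕ, Introenumerable A ∧ ¬ FinitelyDecomposable A := by
  classical
  obtain ⟨e, he⟩ := exists_surjective_nat (Σ n : ℕ, Fin (n + 1) → Ops)
  have hstep : ∀ k p : ℕ, ∃ c, (p < M k → c < M (k + 1) ∧ c % M k = p) ∧
      (p < M k → (e k.unpair.1).1 + 2 ≤ 2 ^ (2 * k + 1) →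
        ∀ z, Branch z → z (k + 1) = c → ¬ Dec (e k.unpair.1) z) := by
    intro k p
    by_cases hp : p < M k
    · by_cases hn : (e k.unpair.1).1 + 2 ≤ 2 ^ (2 * k + 1)
      · obtain ⟨c, h1, h2, h3⟩ := exists_step (e k.unpair.1) k p hp hn
        exact ⟨c, fun _ => ⟨h1, h2⟩, fun _ _ => h3⟩
      · refine ⟨p, fun _ => ⟨lt_of_lt_of_le hp (Nat.le_of_dvd (M_pos _) (M_dvd (Nat.le_succ k))),
          Nat.mod_eq_of_lt hp⟩, fun _ h => absurd h hn⟩
    · exact ⟨0, fun h => absurd h hp, fun h => absurd h hp⟩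
  choose step hs1 hs2 using hstep
  let z : ℕ → ℕ := fun n => Nat.rec 0 (fun k p => step k p) n
  have hz0 : z 0 = 0 := rfl
  have hzs : ∀ k, z (k + 1) = step k (z k) := fun k => rfl
  have hlt : ∀ k, z k < M k := by
    intro k
    induction k with
    | zero => rw [hz0]; exact M_pos 0
    | succ k ih => rw [hzs]; exact (hs1 k (z k) ih).1
  have hz : Branch z := fun k => ⟨hlt k, by rw [hzs]; exact (hs1 k (z k) (hlt k)).2⟩
  refine ⟨A z, introenumerable_A hz, fun hfd => ?_⟩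
  obtain ⟨τ, hτ⟩ := dec_of_finitelyDecomposable hfd
  obtain ⟨j, hj⟩ := he τ
  have hk : (e (Nat.pair j (τ.1 + 1)).unpair.1) = τ := by simp [hj]
  have hn : (e (Nat.pair j (τ.1 + 1)).unpair.1).1 + 2 ≤ 2 ^ (2 * (Nat.pair j (τ.1 + 1)) + 1) := by
    rw [hk]
    have h1 : τ.1 + 1 ≤ Nat.pair j (τ.1 + 1) := Nat.right_le_pair _ _
    have h2 : 2 * (Nat.pair j (τ.1 + 1)) + 1 < 2 ^ (2 * (Nat.pair j (τ.1 + 1)) + 1) :=
      Nat.lt_two_pow_self
    omega
  have := hs2 (Nat.pair j (τ.1 + 1)) (z _) (hlt _) hn z hz (hzs _)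
  rw [hk] at this
  exact this hτ

end Pool.Agent.Results.MP_7321fb_lc.NotFinDecomp
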